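import Pool.Agent.Helper5.KPA.StP
import Pool.Agent.Helper5.KPA.StN

/-! # Project KP, chapter A, module MLS: the strict lower bound -/

set_option autoImplicit false

namespace Pool.Agent.Helper97.KPA

open Pool.Agent.Helper5.KPA Pool.Agent.Helper52.KP MvPolynomial

section basic

variable {C : Cone}

private theorem mls_qr_mul (hG : Good C) {a b : ℕ} {x y : QQ C.m} (hx : x ∈ QR C a)
    (hy : y ∈ QR C b) : x * y ∈ QR C (a + b) := by
  intro l
  rw [Polynomial.coeff_mul]
  exact (C.R (a + b)).sum_mem fun p _ => hG.mul _ _ _ _ (hx p.1) (hy p.2)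

private theorem mls_qr_C {a : ℕ} {f : MvPolynomial (Fin C.m) ℂ} (hf : f ∈ C.R a) :
    (Polynomial.C f : QQ C.m) ∈ QR C a := by
  intro l
  rw [Polynomial.coeff_C]
  split_ifs
  · exact hf
  · exact (C.R a).zero_mem

private theorem mls_qr_one (hG : Good C) : (1 : QQ C.m) ∈ QR C 0 := by
  rw [← Polynomial.C_1]
  exact mls_qr_C hG.one

private theorem mls_qr_pow (hG : Good C) {a : ℕ} {x : QQ C.m} (hx : x ∈ QR C a) (t : ℕ) :
    x ^ t ∈ QR C (a * t) := by
  induction t with
  | zero => simpa using mls_qr_one hG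
  | succ t ih =>
    rw [pow_succ, Nat.mul_succ]
    exact mls_qr_mul hG ih hx

private theorem mls_qr_X (hG : Good C) (t : ℕ) : (Polynomial.X ^ t : QQ C.m) ∈ QR C 0 := by
  have h1 : (Polynomial.X : QQ C.m) ∈ QR C 0 := by
    intro l
    rw [Polynomial.coeff_X]
    split_ifs
    · exact hG.one
    · exact (C.R 0).zero_mem
  simpa using mls_qr_pow hG h1 t

private theorem mls_qr_cst (hG : Good C) (c : ℂ) :
    (Polynomial.C (MvPolynomial.C c) : QQ C.m) ∈ QR C 0 := by
  apply mls_qr_C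
  have h1 : (MvPolynomial.C c : MvPolynomial (Fin C.m) ℂ) = c • 1 := by
    rw [MvPolynomial.smul_eq_C_mul, mul_one]
  rw [h1]
  exact (C.R 0).smul_mem c hG.one

variable {r : ℕ} {F : ℕ → ℕ → Submodule ℂ (MvPolynomial (Fin C.m) ℂ)}

private theorem mls_F_le (hN : NF C r F) (k l : ℕ) : F k l ≤ C.R (C.n * r * k) := by
  rw [← hN.zero k]
  have h1 : Antitone (F k) := antitone_nat_of_succ_le fun n => hN.anti k n
  exact h1 (Nat.zero_le l)

private theorem mls_BB_le (hN : NF C r F) {k : ℕ} {x : QQ C.m} (hx : x ∈ BB F k) :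
    x ∈ QR C (C.n * r * k) := fun l => mls_F_le hN k l (hx l)

variable {h : ℕ} {v : Fin h → QQ C.m → ℤ} {b : Fin h → ℕ}

private theorem mls_v_one (hV : VD C r F h v b) (i : Fin h) : v i 1 = 0 := by
  have := hV.cst i 1 one_ne_zero
  simpa using this

private theorem mls_v_smul (hG : Good C) (hV : VD C r F h v b) (i : Fin h) {k : ℕ} {x : QQ C.m}
    (hx : x ∈ QR C (C.n * r * k)) (hx0 : x ≠ 0) {c : ℂ} (hc : c ≠ 0) : v i (c • x) = v i x := by
  have h1 : c • x = Polynomial.C (MvPolynomial.C c) * x := by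
    rw [← Polynomial.smul_eq_C_mul]
    ext1 n
    rw [Polynomial.coeff_smul, Polynomial.coeff_smul, MvPolynomial.smul_eq_C_mul, smul_eq_mul]
  have h2 : (Polynomial.C (MvPolynomial.C c) : QQ C.m) ≠ 0 := by simpa using hc
  rw [h1, hV.mul i 0 k _ _ (by simpa using mls_qr_cst hG c) hx h2 hx0, hV.cst i c hc, zero_add]

private theorem mls_v_pow (hG : Good C) (hV : VD C r F h v b) (i : Fin h) {k : ℕ} {x : QQ C.m}
    (hx : x ∈ QR C (C.n * r * k)) (hx0 : x ≠ 0) (t : ℕ) : v i (x ^ t) = t * v i x := by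
  induction t with
  | zero => simpa using mls_v_one hV i
  | succ t ih =>
    have h1 : x ^ t ∈ QR C (C.n * r * (k * t)) := by
      rw [← mul_assoc]
      exact mls_qr_pow hG hx t
    rw [pow_succ, hV.mul i _ _ _ _ h1 hx (pow_ne_zero _ hx0) hx0, ih]
    push_cast
    ring

private theorem mls_v_mon (hG : Good C) (hV : VD C r F h v b) (i : Fin h) {k : ℕ}
    {f : MvPolynomial (Fin C.m) ℂ} (hf : f ∈ C.R (C.n * r * k)) (hf0 : f ≠ 0) (t : ℕ) :
    v i (Polynomial.C f * Polynomial.X ^ t) = v i (Polynomial.C f) - t * b i := by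
  have h0 : (Polynomial.X : QQ C.m) ∈ QR C (C.n * r * 0) := by
    have := mls_qr_X (C := C) hG 1
    simpa using this
  rw [hV.mul i k 0 _ _ (mls_qr_C hf) (by simpa using mls_qr_X hG t) (by simpa using hf0)
    (pow_ne_zero _ Polynomial.X_ne_zero), mls_v_pow hG hV i h0 Polynomial.X_ne_zero t, hV.tau i]
  ring

/-- the subspace of elements of value at least `t` -/
private theorem mls_sub (hG : Good C) (hV : VD C r F h v b) (i : Fin h) (k : ℕ) (t : ℤ) :
    ∃ S : Submodule ℂ (QQ C.m), ∀ x, x ∈ S ↔ (x ∈ QR C (C.n * r * k) ∧ (x ≠ 0 → t ≤ v i x)) := by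
  refine ⟨{ carrier := {x | x ∈ QR C (C.n * r * k) ∧ (x ≠ 0 → t ≤ v i x)},
            add_mem' := ?_, zero_mem' := ?_, smul_mem' := ?_ }, fun x => Iff.rfl⟩
  · rintro x y ⟨hx, hx'⟩ ⟨hy, hy'⟩
    refine ⟨(QR C _).add_mem hx hy, fun hxy => ?_⟩
    rcases eq_or_ne x 0 with rfl | hx0
    · rw [zero_add] at hxy ⊢
      exact hy' hxy
    rcases eq_or_ne y 0 with rfl | hy0
    · rw [add_zero] at hxy ⊢
      exact hx' hxy
    exact (le_min (hx' hx0) (hy' hy0)).trans (hV.add i k x y hx hy hx0 hy0 hxy)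
  · exact ⟨(QR C _).zero_mem, fun h => absurd rfl h⟩
  · rintro c x ⟨hx, hx'⟩
    refine ⟨(QR C _).smul_mem c hx, fun hcx => ?_⟩
    have hc : c ≠ 0 := by
      rintro rfl
      exact hcx (zero_smul _ _)
    have hx0 : x ≠ 0 := by
      rintro rfl
      exact hcx (smul_zero _)
    rw [mls_v_smul hG hV i hx hx0 hc]
    exact hx' hx0

end basic

theorem hMLS (hMVV : StMVV) (hMSU : StMSU) (hMSH : StMSH) (hAGR : StAGR) : StMLS := by
  intro C hG r F hN h v b hV ℓ δ u hU i₀ hb
  obtain ⟨κ, hκ, K₀, hgro⟩ := hV.gro i₀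
  obtain ⟨k₁, π, hπ, hπ0, hπ1⟩ := hV.unif i₀
  obtain ⟨-, -, -, L, hL⟩ := hAGR C hG r F hN
  have hr : 0 < r := hN.hr
  have hn : 0 < C.n := hG.hn
  have hδ := hU.pos
  have hu0 : u ≠ 0 := by
    rintro rfl
    exact hU.c1 (by simp)
  refine ⟨κ / 2, by positivity, fun q => ?_⟩
  -- the powers of `u`
  obtain ⟨a₁, ha₁⟩ : ∃ a₁, a₁ + 1 = r * δ := ⟨r * δ - 1, by
    have : 0 < r * δ := Nat.mul_pos hr hδ
    omega⟩
  have hu : u ∈ QR C (C.n * a₁) := by
    have h1 : C.n * r * δ - C.n = C.n * a₁ := by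
      rw [mul_assoc, ← ha₁, mul_add, mul_one, Nat.add_sub_cancel]
    rw [← h1]
    exact hU.mem
  have hut : ∀ (i : Fin h) (t : ℕ), v i ((u ^ t) ^ r) = t * v i (u ^ r) := by
    intro i t
    induction t with
    | zero => simpa using mls_v_one hV i
    | succ t ih =>
      have h1 : u ^ t ∈ QR C (C.n * (a₁ * t)) := by
        rw [← mul_assoc]
        exact mls_qr_pow hG hu t
      rw [pow_succ, (hMVV C hG r F hN h v b hV i).1 _ _ _ _ h1 hu (pow_ne_zero _ hu0) hu0, ih]
      push_cast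
      ring
  obtain ⟨xq, hxq⟩ : ∃ xq : QQ C.m, xq = u ^ (r * q) := ⟨_, rfl⟩
  have hxq0 : xq ≠ 0 := by
    rw [hxq]
    exact pow_ne_zero _ hu0
  have hxqm : xq ∈ QR C (C.n * r * (a₁ * q)) := by
    have h1 : C.n * r * (a₁ * q) = C.n * a₁ * (r * q) := by ring
    rw [h1, hxq]
    exact mls_qr_pow hG hu _
  have hxqv : ∀ i, v i xq = q * v i (u ^ r) := by
    intro i
    have h1 := (hMVV C hG r F hN h v b hV i).2.2.1 _ _ hxqm hxq0
    rw [hxq, hut i, ← hxq] at h1
    have h2 : (r : ℤ) * v i xq = r * (q * v i (u ^ r)) := by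
      rw [← h1]
      push_cast
      ring
    exact mul_left_cancel₀ (by exact_mod_cast hr.ne') h2
  have hxqc : Polynomial.X ^ (r * q) ∣ xq := by
    rw [hxq]
    exact pow_dvd_pow_of_dvd (Polynomial.X_dvd_iff.mpr hU.c0) _
  obtain ⟨E, hE⟩ : ∃ E : ℤ, E = v i₀ (u ^ r) := ⟨_, rfl⟩
  obtain ⟨K, hK⟩ : ∃ K : ℕ, K = r * q * δ + q * k₁ := ⟨_, rfl⟩
  refine ⟨q + K + K₀ + 2 * (C.m * K) + 1, fun k hk => ?_⟩
  have hqk : q ≤ k := by omega
  have hrq : r * q ≤ r * k := Nat.mul_le_mul_left _ hqk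
  obtain ⟨hMM, hfd, -⟩ := hMSU C hG r F hN h v b hV u (r * q) k hrq
  have := hfd
  have hdeg : C.n * r * k - C.n * (r * q) = C.n * r * (k - q) := by
    rw [← mul_assoc, Nat.mul_sub]
  -- the subspaces
  choose VS hVS using fun (i : Fin h) (k : ℕ) (t : ℤ) => mls_sub (F := F) (v := v) (b := b)
    hG hV i k t
  obtain ⟨S, hS⟩ : ∃ S : ℕ → Submodule ℂ (QQ C.m), ∀ j, S j =
      MM C r v u (r * q) k ⊓ VS i₀ (k - q) (q * E + j) := ⟨_, fun j => rfl⟩
  have hSfd : ∀ j, FiniteDimensional ℂ (S j) := by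
    intro j
    rw [hS j]
    infer_instance
  -- membership in `MM`
  have hmem : ∀ x : QQ C.m, x ∈ QR C (C.n * r * (k - q)) → (∀ l < r * q, x.coeff l = 0) →
      (x ≠ 0 → ∀ i, (q : ℤ) * v i (u ^ r) ≤ v i x) → x ∈ MM C r v u (r * q) k := by
    intro x hx hx2 hx3
    rw [hMM]
    refine ⟨by rw [hdeg]; exact hx, hx2, fun hx0 i => ?_⟩
    rw [(hMVV C hG r F hN h v b hV i).2.2.1 _ _ hx hx0]
    have h1 := hx3 hx0 i
    have h2 : (0 : ℤ) ≤ r := by positivity
    calc ((r * q : ℕ) : ℤ) * v i (u ^ r) = r * (q * v i (u ^ r)) := by push_cast; ring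
      _ ≤ r * v i x := mul_le_mul_of_nonneg_left h1 h2
  have hS0 : Module.finrank ℂ (S 0) ≤ Module.finrank ℂ (MM C r v u (r * q) k) := by
    apply Submodule.finrank_mono
    rw [hS 0]
    exact inf_le_left
  -- the step
  have hstep : ∀ j, j < q → (Module.finrank ℂ (S (j + 1)) : ℝ) +
      κ * ((k - K : ℕ) : ℝ) ^ (C.m - 1) ≤ Module.finrank ℂ (S j) := by
    intro j hj
    obtain ⟨kj, hkj⟩ : ∃ kj, kj = r * q * δ + j * k₁ := ⟨_, rfl⟩
    have hkjK : kj ≤ K := by
      rw [hkj, hK]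
      have := Nat.mul_le_mul_right k₁ hj.le
      omega
    have hkjk : kj ≤ k := by omega
    obtain ⟨xj, hxj⟩ : ∃ xj : QQ C.m, xj = xq * π ^ j := ⟨_, rfl⟩
    have hπm := mls_BB_le hN hπ
    have hπj : π ^ j ∈ QR C (C.n * r * (k₁ * j)) := by
      rw [← mul_assoc]
      exact mls_qr_pow hG hπm j
    have hxj0 : xj ≠ 0 := by
      rw [hxj]
      exact mul_ne_zero hxq0 (pow_ne_zero _ hπ0)
    have hxjm : xj ∈ QR C (C.n * r * (a₁ * q + k₁ * j)) := by
      rw [hxj, mul_add]
      exact mls_qr_mul hG hxqm hπj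
    have hπv : ∀ i, 0 ≤ v i π := fun i => hV.nonneg i _ _ hπ hπ0
    have hxjv : ∀ i, v i xj = q * v i (u ^ r) + j * v i π := by
      intro i
      rw [hxj, hV.mul i _ _ _ _ hxqm hπj hxq0 (pow_ne_zero _ hπ0), hxqv,
        mls_v_pow hG hV i hπm hπ0]
    have hdeg2 : a₁ * q + k₁ * j + (k - kj) = k - q := by
      have h1 : a₁ * q + q = r * q * δ := by
        calc a₁ * q + q = (a₁ + 1) * q := by ring
          _ = r * q * δ := by rw [ha₁]; ring
      have h2 : j * k₁ = k₁ * j := mul_comm _ _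
      omega
    have hprod : ∀ y ∈ BB F (k - kj), xj * y ∈ QR C (C.n * r * (k - q)) := by
      intro y hy
      rw [← hdeg2, mul_add]
      exact mls_qr_mul hG hxjm (mls_BB_le hN hy)
    have hprodv : ∀ y ∈ BB F (k - kj), y ≠ 0 → ∀ i, v i (xj * y) =
        q * v i (u ^ r) + j * v i π + v i y := by
      intro y hy hy0 i
      rw [hV.mul i _ _ _ _ hxjm (mls_BB_le hN hy) hxj0 hy0, hxjv]
    let φ : QQ C.m →ₗ[ℂ] QQ C.m := LinearMap.mulLeft ℂ xj
    have hφ : Function.Injective φ := by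
      intro y y' hyy
      exact mul_left_cancel₀ hxj0 hyy
    obtain ⟨W, hW⟩ : ∃ W : Submodule ℂ (QQ C.m), W = BB F (k - kj) ⊓ VS i₀ (k - kj) 1 := ⟨_, rfl⟩
    have h1 : (BB F (k - kj)).map φ ≤ S j := by
      rintro _ ⟨y, hy, rfl⟩
      have hy' : y ∈ BB F (k - kj) := hy
      rw [hS j, Submodule.mem_inf, hVS]
      change xj * y ∈ _ ∧ xj * y ∈ _ ∧ (xj * y ≠ 0 → _ ≤ v i₀ (xj * y))
      refine ⟨hmem _ (hprod y hy') ?_ ?_, hprod y hy', ?_⟩
      · intro l hl
        have h2 : Polynomial.X ^ (r * q) ∣ xj * y := by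
          rw [hxj, mul_assoc]
          exact Dvd.dvd.mul_right hxqc _
        exact Polynomial.X_pow_dvd_iff.mp h2 l hl
      · intro h2 i
        have hy0 : y ≠ 0 := right_ne_zero_of_mul h2
        rw [hprodv y hy' hy0 i]
        have h3 := hV.nonneg i _ _ hy' hy0
        have h4 : 0 ≤ (j : ℤ) * v i π := mul_nonneg (by positivity) (hπv i)
        linarith
      · intro h2
        have hy0 : y ≠ 0 := right_ne_zero_of_mul h2
        rw [hprodv y hy' hy0 i₀, hπ1, ← hE]
        have h3 := hV.nonneg i₀ _ _ hy' hy0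
        linarith
    have h2 : S (j + 1) ≤ S j := by
      intro x hx
      rw [hS, Submodule.mem_inf, hVS] at hx ⊢
      refine ⟨hx.1, hx.2.1, fun h3 => ?_⟩
      have h4 := hx.2.2 h3
      push_cast at h4
      linarith
    have h3 : S (j + 1) ⊓ (BB F (k - kj)).map φ ≤ W.map φ := by
      rintro x ⟨hx1, y, hy, rfl⟩
      have hy' : y ∈ BB F (k - kj) := hy
      refine ⟨y, ?_, rfl⟩
      change y ∈ W
      rw [hW, Submodule.mem_inf, hVS]
      refine ⟨hy', mls_BB_le hN hy', fun hy0 => ?_⟩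
      have hx2 : xj * y ∈ S (j + 1) := hx1
      rw [hS, Submodule.mem_inf, hVS] at hx2
      have h4 := hx2.2.2 (mul_ne_zero hxj0 hy0)
      rw [hprodv y hy' hy0 i₀, hπ1, ← hE] at h4
      push_cast at h4
      linarith
    have hfB : FiniteDimensional ℂ ((BB F (k - kj)).map φ) := by
      have := hSfd j
      exact Submodule.finiteDimensional_of_le h1
    have hmapfr : ∀ Z : Submodule ℂ (QQ C.m), Module.finrank ℂ (Z.map φ) = Module.finrank ℂ Z :=
      fun Z => (LinearEquiv.finrank_eq (Submodule.equivMapOfInjective φ hφ Z)).symm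
    have hfW : FiniteDimensional ℂ (W.map φ) := by
      refine Submodule.finiteDimensional_of_le (S₂ := (BB F (k - kj)).map φ) ?_
      apply Submodule.map_mono
      rw [hW]
      exact inf_le_left
    have := hSfd j
    have := hSfd (j + 1)
    have h4 := Submodule.finrank_sup_add_finrank_inf_eq (S (j + 1)) ((BB F (k - kj)).map φ)
    have h5 : Module.finrank ℂ ↥(S (j + 1) ⊔ (BB F (k - kj)).map φ) ≤ Module.finrank ℂ (S j) :=
      Submodule.finrank_mono (sup_le h2 h1)
    have h6 : Module.finrank ℂ ↥(S (j + 1) ⊓ (BB F (k - kj)).map φ) ≤ Module.finrank ℂ W := by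
      rw [← hmapfr W]
      exact Submodule.finrank_mono h3
    rw [hmapfr] at h4
    have h7 := hgro (k - kj) (by omega) W (by
      intro x hx
      rw [hW, Submodule.mem_inf, hVS] at hx
      exact ⟨hx.1, hx.2.2⟩)
    have h8 : ((k - K : ℕ) : ℝ) ^ (C.m - 1) ≤ ((k - kj : ℕ) : ℝ) ^ (C.m - 1) := by
      apply pow_le_pow_left₀ (by positivity)
      exact_mod_cast Nat.sub_le_sub_left hkjK k
    have h9 := mul_le_mul_of_nonneg_left h8 hκ.le
    have h10 : (Module.finrank ℂ ↥(S (j + 1) ⊔ (BB F (k - kj)).map φ) : ℝ) +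
        Module.finrank ℂ ↥(S (j + 1) ⊓ (BB F (k - kj)).map φ) =
        Module.finrank ℂ (S (j + 1)) + Module.finrank ℂ (BB F (k - kj)) := by
      exact_mod_cast h4
    have h11 : (Module.finrank ℂ ↥(S (j + 1) ⊔ (BB F (k - kj)).map φ) : ℝ) ≤
        Module.finrank ℂ (S j) := by exact_mod_cast h5
    have h12 : (Module.finrank ℂ ↥(S (j + 1) ⊓ (BB F (k - kj)).map φ) : ℝ) ≤
        Module.finrank ℂ W := by exact_mod_cast h6
    linarith
  have hsum : ∀ t, t ≤ q → (Module.finrank ℂ (S t) : ℝ) +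
      t * (κ * ((k - K : ℕ) : ℝ) ^ (C.m - 1)) ≤ Module.finrank ℂ (S 0) := by
    intro t ht
    induction t with
    | zero => simp
    | succ t ih =>
      have h1 := ih (by omega)
      have h2 := hstep t (by omega)
      push_cast
      linarith
  -- the space `L_k`
  obtain ⟨x₀, hx₀⟩ : ∃ x₀ : ℝ, x₀ = r * q * (1 - ℓ) := ⟨_, rfl⟩
  have hFfd : ∀ j, FiniteDimensional ℂ (F (k - q) j) := by
    intro j
    have := hG.fd (C.n * r * (k - q))
    exact Submodule.finiteDimensional_of_le (mls_F_le hN (k - q) j)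
  have hLL : (wF F (k - q) - (r : ℝ) * q * (2 - ℓ) * Module.finrank ℂ (RD C r (k - q))) ≤
      Module.finrank ℂ (S q) := by
    obtain ⟨Λ, -, hΛ⟩ := hMSH (fun j => (Module.finrank ℂ (F (k - q) j) : ℝ))
      ((k - q) * L + 1) (r * q) x₀ (by
        apply antitone_nat_of_succ_le
        intro j
        have := hFfd j
        exact_mod_cast Submodule.finrank_mono (hN.anti (k - q) j)) (fun j => by positivity)
      (fun j hj => by
        have h1 := hL (k - q) j hj
        change (Module.finrank ℂ (F (k - q) j) : ℝ) = 0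
        rw [h1]
        simp)
    have h1 := hΛ Λ le_rfl
    have h2 : (∑ᶠ j : ℕ, (Module.finrank ℂ (F (k - q) (j + 1)) : ℝ)) = wF F (k - q) := rfl
    have h3 : (Module.finrank ℂ (F (k - q) 0) : ℝ) = Module.finrank ℂ (RD C r (k - q)) := by
      rw [hN.zero]
      rfl
    have h4 : ((r * q : ℕ) : ℝ) + x₀ = r * q * (2 - ℓ) := by
      rw [hx₀]
      push_cast
      ring
    simp only [h2, h3, h4] at h1
    refine h1.trans ?_
    -- the map
    let ix : Fin Λ → ℕ := fun l => ⌈((r * q + (l : ℕ) : ℕ) : ℝ) + x₀⌉₊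
    have h5 : ∑ l ∈ Finset.Ico (r * q) (r * q + Λ),
        (Module.finrank ℂ (F (k - q) ⌈(l : ℝ) + x₀⌉₊) : ℝ) =
        ((∑ l : Fin Λ, Module.finrank ℂ (F (k - q) (ix l)) : ℕ) : ℝ) := by
      rw [Finset.sum_Ico_eq_sum_range, Nat.add_sub_cancel_left, Finset.sum_range]
      push_cast
      rfl
    rw [h5]
    have : ∀ l : Fin Λ, FiniteDimensional ℂ (F (k - q) (ix l)) := fun l => hFfd _
    rw [← Module.finrank_pi_fintype ℂ (M := fun l : Fin Λ => F (k - q) (ix l))]
    let Ψ : ((l : Fin Λ) → F (k - q) (ix l)) →ₗ[ℂ] QQ C.m :=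
      ∑ l : Fin Λ, ((Polynomial.monomial (r * q + (l : ℕ))).restrictScalars ℂ) ∘ₗ
        (F (k - q) (ix l)).subtype ∘ₗ LinearMap.proj l
    have hΨ : ∀ f, Ψ f = ∑ l : Fin Λ, Polynomial.C (f l : MvPolynomial (Fin C.m) ℂ) *
        Polynomial.X ^ (r * q + (l : ℕ)) := by
      intro f
      simp only [Ψ, LinearMap.sum_apply, LinearMap.comp_apply, LinearMap.proj_apply,
        Submodule.subtype_apply, LinearMap.restrictScalars_apply]
      refine Finset.sum_congr rfl fun l _ => ?_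
      rw [Polynomial.C_mul_X_pow_eq_monomial]
    have hco : ∀ f n, (Ψ f).coeff n = ∑ l : Fin Λ, if n = r * q + (l : ℕ) then
        (f l : MvPolynomial (Fin C.m) ℂ) else 0 := by
      intro f n
      rw [hΨ, Polynomial.finsetSum_coeff]
      refine Finset.sum_congr rfl fun l _ => ?_
      rw [Polynomial.coeff_C_mul_X_pow]
    have hΨi : Function.Injective Ψ := by
      rw [injective_iff_map_eq_zero]
      intro f hf
      funext l
      have h6 := hco f (r * q + l)
      rw [hf, Polynomial.coeff_zero, Finset.sum_eq_single l] at h6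
      · rw [if_pos rfl] at h6
        exact Subtype.ext h6.symm
      · intro l' _ hl'
        rw [if_neg]
        intro h7
        exact hl' (Fin.ext (by omega))
      · intro h7
        exact absurd (Finset.mem_univ _) h7
    have hcoA : ∀ f n, (Ψ f).coeff n ∈ C.R (C.n * r * (k - q)) := by
      intro f n
      rw [hco]
      refine (C.R _).sum_mem fun l _ => ?_
      split_ifs
      · exact mls_F_le hN _ _ (f l).2
      · exact (C.R _).zero_mem
    have hterm : ∀ (f : (l : Fin Λ) → F (k - q) (ix l)) (i : Fin h),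
        Ψ f ∈ VS i (k - q) ⌈x₀ * b i⌉ := by
      intro f i
      rw [hΨ]
      refine Submodule.sum_mem _ fun l _ => ?_
      have h6 : (f l : MvPolynomial (Fin C.m) ℂ) ∈ C.R (C.n * r * (k - q)) :=
        mls_F_le hN _ _ (f l).2
      rw [hVS]
      refine ⟨?_, fun h7 => ?_⟩
      · have := mls_qr_mul hG (mls_qr_C h6) (mls_qr_X hG (r * q + (l : ℕ)))
        simpa using this
      · have h8 : (f l : MvPolynomial (Fin C.m) ℂ) ≠ 0 := by
          intro h9
          rw [h9] at h7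
          simp at h7
        rw [mls_v_mon hG hV i h6 h8]
        have h9 : Polynomial.C (f l : MvPolynomial (Fin C.m) ℂ) * Polynomial.X ^ (ix l) ∈
            BB F (k - q) := by
          intro n
          rw [Polynomial.coeff_C_mul_X_pow]
          split_ifs with h10
          · rw [h10]
            exact (f l).2
          · exact (F (k - q) n).zero_mem
        have h10 := hV.nonneg i _ _ h9 (mul_ne_zero (by simpa using h8)
          (pow_ne_zero _ Polynomial.X_ne_zero))
        rw [mls_v_mon hG hV i h6 h8] at h10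
        rw [Int.ceil_le]
        push_cast
        have h11 : ((ix l : ℕ) : ℝ) * b i ≤ v i (Polynomial.C (f l : MvPolynomial (Fin C.m) ℂ)) := by
          have h12 : ((ix l : ℕ) : ℤ) * b i ≤
            v i (Polynomial.C (f l : MvPolynomial (Fin C.m) ℂ)) := by linarith
          exact_mod_cast h12
        have h12 : ((r * q + (l : ℕ) : ℕ) : ℝ) + x₀ ≤ (ix l : ℕ) := Nat.le_ceil _
        have h13 := mul_le_mul_of_nonneg_right h12 (by positivity : (0 : ℝ) ≤ b i)
        push_cast at h13 ⊢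
        linarith
    have hrange : LinearMap.range Ψ ≤ S q := by
      rintro _ ⟨f, rfl⟩
      have hcoA' : Ψ f ∈ QR C (C.n * r * (k - q)) := hcoA f
      have hval : ∀ i, Ψ f ≠ 0 → x₀ * b i ≤ (v i (Ψ f) : ℝ) := by
        intro i h6
        have h7 := hterm f i
        rw [hVS] at h7
        exact Int.ceil_le.mp (h7.2 h6)
      have hbi : ∀ i, (1 : ℝ) ≤ b i := fun i => by exact_mod_cast hV.bpos i
      have hq0 : (0 : ℝ) ≤ q := by positivity
      have hr0 : (1 : ℝ) ≤ r := by exact_mod_cast hr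
      rw [hS q, Submodule.mem_inf, hVS]
      refine ⟨hmem _ hcoA' ?_ ?_, hcoA', ?_⟩
      · intro n hn'
        rw [hco]
        refine Finset.sum_eq_zero fun l _ => ?_
        rw [if_neg]
        omega
      · intro h6 i
        have h7 := hval i h6
        have h8 := mul_le_mul_of_nonneg_left (hU.upp i) hq0
        have h9 : (q : ℝ) * (r - r * ℓ * b i) ≤ x₀ * b i := by
          rw [hx₀]
          have h10 : 0 ≤ (r : ℝ) * q * ((b i : ℝ) - 1) :=
            mul_nonneg (by positivity) (by linarith [hbi i])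
          nlinarith
        have h10 : (q : ℝ) * v i (u ^ r) ≤ v i (Ψ f) := by linarith
        exact_mod_cast h10
      · intro h6
        have h7 := hval i₀ h6
        have h8 := mul_le_mul_of_nonneg_left (hU.upp i₀) hq0
        have hb2 : (2 : ℝ) ≤ b i₀ := by exact_mod_cast hb
        have h9 : (q : ℝ) * (r - r * ℓ * b i₀) + q ≤ x₀ * b i₀ := by
          rw [hx₀]
          have h10 : (q : ℝ) * 1 ≤ (q : ℝ) * (r * ((b i₀ : ℝ) - 1)) := by
            apply mul_le_mul_of_nonneg_left _ hq0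
            nlinarith
          nlinarith
        rw [← hE] at h8
        have h10 : (q : ℝ) * E + q ≤ v i₀ (Ψ f) := by linarith
        exact_mod_cast h10
    have := hSfd q
    have h6 := LinearMap.finrank_range_of_inj hΨi
    rw [← h6]
    exact_mod_cast Submodule.finrank_mono hrange
  -- the end
  have h1 := hsum q le_rfl
  have h2 : (k : ℝ) ^ (C.m - 1) / 2 ≤ ((k - K : ℕ) : ℝ) ^ (C.m - 1) := by
    have hKk : K ≤ k := by omega
    have hk0 : (0 : ℝ) < k := by
      have : 0 < k := by omega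
      exact_mod_cast this
    have e1 : ((k - K : ℕ) : ℝ) = k * (1 + -((K : ℝ) / k)) := by
      rw [Nat.cast_sub hKk]
      field_simp
      ring
    have e2 : (K : ℝ) / k ≤ 1 := by
      rw [div_le_one hk0]
      exact_mod_cast hKk
    have e3 := one_add_mul_le_pow (a := -((K : ℝ) / k)) (by linarith) (C.m - 1)
    have e4 : ((C.m - 1 : ℕ) : ℝ) * ((K : ℝ) / k) ≤ 1 / 2 := by
      rw [← mul_div_assoc, div_le_iff₀ hk0]
      have e5 : ((C.m - 1 : ℕ) : ℝ) ≤ C.m := by exact_mod_cast Nat.sub_le _ _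
      have e6 : (2 * ((C.m : ℝ) * K)) ≤ k := by
        have : 2 * (C.m * K) ≤ k := by omega
        exact_mod_cast this
      have e7 := mul_le_mul_of_nonneg_right e5 (by positivity : (0 : ℝ) ≤ K)
      linarith
    rw [e1, mul_pow]
    have e5 := mul_le_mul_of_nonneg_left (show (1 / 2 : ℝ) ≤ (1 + -((K : ℝ) / k)) ^ (C.m - 1) by
      linarith) (by positivity : (0 : ℝ) ≤ (k : ℝ) ^ (C.m - 1))
    linarith
  have h3 : (Module.finrank ℂ (S 0) : ℝ) ≤ dM C r v u (r * q) k := by
    rw [dM]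
    exact_mod_cast hS0
  have h4 : κ / 2 * q * (k : ℝ) ^ (C.m - 1) ≤ q * (κ * ((k - K : ℕ) : ℝ) ^ (C.m - 1)) := by
    have h5 := mul_le_mul_of_nonneg_left h2 (by positivity : (0 : ℝ) ≤ q * κ)
    calc κ / 2 * q * (k : ℝ) ^ (C.m - 1) = q * κ * ((k : ℝ) ^ (C.m - 1) / 2) := by ring
      _ ≤ q * κ * ((k - K : ℕ) : ℝ) ^ (C.m - 1) := h5
      _ = _ := by ring
  linarith

end Pool.Agent.Helper97.KPA
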